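import Pool.Agent.H572.ST.Fin
import Pool.Agent.H572.ST.Gap

/-!
# Gaps `γ_{n+k} - γ_n` with `k` of order `log n`, and asymptotic constants for `N(T)`, `S(T)`, `∫ S`

We prove, unconditionally:

* `|N(T) - (T / 2π) log (T / 2π e)| ≤ (1 / (4 π) + ε) log T` and `|S(T)| ≤ (1 / (4 π) + ε) log T` for
  `T ≥ T₀(ε)`, where `1 / (4 π) = 0.0796`;
* for all `n ≥ n₀(ε, K)` and `0 ≤ k ≤ K log n` the gap `γ_{n+k} - γ_n` differs from `2π k / log n` by at most
  `1 + ε`;
* so for `k = ⌈κ log n⌉`, `κ > 1 / (2π)`, the gaps `γ_{n+k} - γ_n` are bounded away from `0` and `∞` and the analogue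
  `liminf log (γ_{n+k} - γ_n) / log n` of `α` is `0` (in fact it is a limit), and at most `(1 / (2π) + ε) log n`
  consecutive terms of the sequence `γ_n` can be equal;
* `|∫_{t₁}^{t₂} S| ≤ (G / π³ + ε) log t₂` for `T₀ ≤ t₁ ≤ t₂`, where `G` is Catalan's constant, `G / π³ = 0.0295`.

Idea of the proof. Let `F` be the completed zeta function near `1/2 + iT`. In the strip `|Re (s - 1/2)| ≤ 1/2 + δ`
the function `F ∏ cot (c (s - ρ))`, `ρ` running through the zeros of `F`, has no zeros, and the function obtained from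
it by symmetrization has constant absolute value on the edges, up to `O(1)`; so it is constant up to `O(ε log T)`.
So `log |F|` and `F' / F` are sums over zeros of explicit kernels up to `O(ε log T)`; the kernels that represent the
argument and the integral of `log |F|` are dominated, zero by zero, by the kernel that represents `F' / F` at the edge,
where the sum is `(1/2 + o(1)) log T`.
-/

set_option autoImplicit false

open MeasureTheory Filter Topology

namespace Pool.Agent.Results.MP_af3d17_nt.LongGaps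

/-- the zeros of `ζ` in the critical strip with ordinates in `(0, T]` -/
def zeros (T : ℝ) : Set ℂ := {s : ℂ | 0 < s.re ∧ s.re < 1 ∧ 0 < s.im ∧ s.im ≤ T ∧ riemannZeta s = 0}

/-- `N(T)`, with multiplicity -/
noncomputable def N (T : ℝ) : ℕ := ∑ᶠ s ∈ zeros T, analyticOrderNatAt riemannZeta s

/-- `γ_n = inf {T > 0 : N(T) ≥ n}`, the `n`-th ordinate (`n ≥ 1`) in nondecreasing order, with multiplicity -/
noncomputable def γ (n : ℕ) : ℝ := sInf {T : ℝ | 0 < T ∧ n ≤ N T}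

/-- `t` is the ordinate of a zero of `ζ` in the critical strip -/
def IsOrdinate (t : ℝ) : Prop := ∃ s : ℂ, 0 < s.re ∧ s.re < 1 ∧ s.im = t ∧ riemannZeta s = 0

/-- `σ + i t` -/
noncomputable def pt (σ t : ℝ) : ℂ := (σ : ℂ) + (t : ℂ) * Complex.I

/-- `S(t) = (1/π) arg ζ(1/2 + it) = -(1/π) ∫_{1/2}^∞ Im (ζ'/ζ)(σ + it) dσ` -/
noncomputable def S (t : ℝ) : ℝ :=
  -(1 / Real.pi) * ∫ σ in Set.Ioi (1 / 2 : ℝ), (deriv riemannZeta (pt σ t) / riemannZeta (pt σ t)).im

/-- Catalan's constant `∑ (-1)^k / (2k + 1)²` -/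
noncomputable def G : ℝ := ∑' k : ℕ, (-1 : ℝ) ^ k / (2 * k + 1) ^ 2

lemma N_mono : Monotone N := by
  intro a b hab
  rcases le_or_gt b 0 with hb | hb
  · have : zeros a = ∅ := by
      ext s
      simp only [zeros, Set.mem_ofPred_eq, Set.mem_empty_iff_false, iff_false]
      rintro ⟨_, _, h1, h2, _⟩
      linarith
    have h0 : N a = 0 := by simp [N, this]
    rw [h0]
    exact Nat.zero_le _
  rcases le_or_gt a 0 with ha | ha
  · have : zeros a = ∅ := by
      ext s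
      simp only [zeros, Set.mem_ofPred_eq, Set.mem_empty_iff_false, iff_false]
      rintro ⟨_, _, h1, h2, _⟩
      linarith
    have h0 : N a = 0 := by simp [N, this]
    rw [h0]
    exact Nat.zero_le _
  have h := Pool.Agent.H572.ST.NN_add (a := a) (b := b) ha.le hab
  have h1 : N b = H370.NN riemannZeta 0 b := rfl
  have h2 : N a = H370.NN riemannZeta 0 a := rfl
  rw [h1, h2, h]
  exact Nat.le_add_right _ _

lemma cnt : Pool.Agent.H572.ST.Cnt N (1 / (4 * Real.pi)) := by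
  refine ⟨N_mono, fun ε hε => ?_⟩
  obtain ⟨T1, h1, k1⟩ := Pool.Agent.H572.ST.N_bound hε
  exact ⟨T1, by linarith, fun T hT => k1 T hT⟩

/-- **Gaps `γ_{n+k} - γ_n` with `k ≪ log n`, and constants for `N(T)`, `S(T)` and `∫ S`.** -/
theorem result :
    (∀ K ε : ℝ, 0 < ε → ∃ n₀ : ℕ, 2 ≤ n₀ ∧ ∀ n : ℕ, n₀ ≤ n → ∀ k : ℕ, (k : ℝ) ≤ K * Real.log n →
      |γ (n + k) - γ n - 2 * Real.pi * k / Real.log n| ≤ 1 + ε) ∧
    (∀ κ : ℝ, 1 / (2 * Real.pi) < κ →
      Tendsto (fun n : ℕ => Real.log (γ (n + ⌈κ * Real.log n⌉₊) - γ n) / Real.log n) atTop (𝓝 0)) ∧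
    (∀ ε : ℝ, 0 < ε → ∃ T₀ : ℝ, 1 ≤ T₀ ∧
      (∀ T : ℝ, T₀ ≤ T → |(N T : ℝ) - (T / (2 * Real.pi) * Real.log (T / (2 * Real.pi)) - T / (2 * Real.pi))| ≤
        (1 / (4 * Real.pi) + ε) * Real.log T) ∧
      (∀ t : ℝ, T₀ ≤ t → ¬ IsOrdinate t → |S t| ≤ (1 / (4 * Real.pi) + ε) * Real.log t) ∧
      (∀ t₁ t₂ : ℝ, T₀ ≤ t₁ → t₁ ≤ t₂ → IntervalIntegrable S volume t₁ t₂ ∧
        |∫ t in t₁..t₂, S t| ≤ (G / Real.pi ^ 3 + ε) * Real.log t₂)) := by
  have hpi : 0 < Real.pi := Real.pi_pos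
  have part1 : ∀ K ε : ℝ, 0 < ε → ∃ n₀ : ℕ, 2 ≤ n₀ ∧ ∀ n : ℕ, n₀ ≤ n → ∀ k : ℕ, (k : ℝ) ≤ K * Real.log n →
      |γ (n + k) - γ n - 2 * Real.pi * k / Real.log n| ≤ 1 + ε := by
    intro K ε hε
    obtain ⟨n0, h0, h1⟩ := cnt.gaps (by positivity) K ε hε
    refine ⟨n0, h0, fun n hn k hk => ?_⟩
    have h2 := h1 n hn k hk
    have e : 4 * Real.pi * (1 / (4 * Real.pi)) = 1 := by field_simp
    rw [e] at h2
    exact h2
  refine ⟨part1, ?_, ?_⟩
  · intro κ hκ
    have hκ0 : 0 < κ := lt_trans (by positivity) hκ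
    obtain ⟨c, hc⟩ : ∃ c : ℝ, c = (2 * Real.pi * κ - 1) / 2 := ⟨_, rfl⟩
    have hc0 : 0 < c := by
      have : 1 < κ * (2 * Real.pi) := by rwa [div_lt_iff₀ (by positivity)] at hκ
      rw [hc]; linarith
    obtain ⟨n0, h0, h1⟩ := part1 (κ + 1) c hc0
    have hlog := Real.tendsto_log_atTop.comp tendsto_natCast_atTop_atTop
    obtain ⟨n1, hn1⟩ := eventually_atTop.1 (hlog.eventually_ge_atTop 1)
    have hlog0 : Tendsto (fun n : ℕ => (Real.log (n : ℝ))⁻¹) atTop (𝓝 0) := tendsto_inv_atTop_zero.comp hlog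
    obtain ⟨M, hM⟩ : ∃ M : ℝ, M = max |Real.log c| |Real.log (2 * Real.pi * (κ + 1) + 1 + c)| := ⟨_, rfl⟩
    have hbd : ∀ᶠ n : ℕ in atTop, |Real.log (γ (n + ⌈κ * Real.log n⌉₊) - γ n)| ≤ M := by
      filter_upwards [eventually_ge_atTop n0, eventually_ge_atTop n1] with n hn hn'
      have hl : 1 ≤ Real.log (n : ℝ) := hn1 n hn'
      have hk1 : κ * Real.log n ≤ (⌈κ * Real.log n⌉₊ : ℝ) := Nat.le_ceil _
      have hk2 : (⌈κ * Real.log n⌉₊ : ℝ) < κ * Real.log n + 1 := Nat.ceil_lt_add_one (by positivity)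
      have h2 := abs_le.1 (h1 n hn ⌈κ * Real.log n⌉₊ (by nlinarith))
      obtain ⟨g, hg⟩ : ∃ g : ℝ, g = γ (n + ⌈κ * Real.log n⌉₊) - γ n := ⟨_, rfl⟩
      rw [← hg] at h2 ⊢
      have h3 : 2 * Real.pi * κ ≤ 2 * Real.pi * (⌈κ * Real.log n⌉₊ : ℝ) / Real.log n := by
        rw [le_div_iff₀ (by linarith)]
        calc 2 * Real.pi * κ * Real.log n = 2 * Real.pi * (κ * Real.log n) := by ring
          _ ≤ _ := by gcongr
      have h4 : 2 * Real.pi * (⌈κ * Real.log n⌉₊ : ℝ) / Real.log n ≤ 2 * Real.pi * (κ + 1) := by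
        rw [div_le_iff₀ (by linarith)]
        calc 2 * Real.pi * (⌈κ * Real.log n⌉₊ : ℝ) ≤ 2 * Real.pi * ((κ + 1) * Real.log n) := by
              gcongr
              nlinarith
          _ = _ := by ring
      have h5 : c ≤ g := by
        rw [hc] at h2 ⊢
        linarith [h2.1]
      have h6 : g ≤ 2 * Real.pi * (κ + 1) + 1 + c := by linarith [h2.2]
      have h7 : Real.log c ≤ Real.log g := Real.log_le_log hc0 h5
      have h8 : Real.log g ≤ Real.log (2 * Real.pi * (κ + 1) + 1 + c) := Real.log_le_log (by linarith) h6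
      rw [hM, abs_le]
      constructor
      · have := neg_abs_le (Real.log c)
        have := le_max_left |Real.log c| |Real.log (2 * Real.pi * (κ + 1) + 1 + c)|
        linarith
      · have := le_abs_self (Real.log (2 * Real.pi * (κ + 1) + 1 + c))
        have := le_max_right |Real.log c| |Real.log (2 * Real.pi * (κ + 1) + 1 + c)|
        linarith
    have hM0 : Tendsto (fun n : ℕ => M * (Real.log (n : ℝ))⁻¹) atTop (𝓝 0) := by
      have := hlog0.const_mul M
      rwa [mul_zero] at this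
    apply squeeze_zero_norm' _ hM0
    filter_upwards [hbd, eventually_ge_atTop n1] with n hn hn'
    have hl : 1 ≤ Real.log (n : ℝ) := hn1 n hn'
    rw [Real.norm_eq_abs, abs_div, abs_of_nonneg (by linarith : (0:ℝ) ≤ Real.log n), div_eq_mul_inv]
    gcongr
  · intro ε hε
    obtain ⟨T1, h1, k1⟩ := Pool.Agent.H572.ST.N_bound hε
    obtain ⟨T2, h2, k2⟩ := Pool.Agent.H572.ST.S_bound hε
    obtain ⟨T4, h4, k4⟩ := Pool.Agent.H572.ST.intS_bound hε
    have hNZ : ∀ t : ℝ, ¬ IsOrdinate t → Pool.Agent.Y746.OJ.NZ t := by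
      intro t ht σ hσ _ h0
      apply ht
      refine ⟨pt σ t, ?_, ?_, ?_, h0⟩
      · simp [pt]; linarith
      · by_contra hc
        push Not at hc
        exact riemannZeta_ne_zero_of_one_le_re hc h0
      · simp [pt]
    refine ⟨max T1 (max T2 T4), ?_, ?_, ?_, ?_⟩
    · exact le_max_of_le_left (by linarith)
    · intro T hT
      exact k1 T ((le_max_left _ _).trans hT)
    · intro t ht hO
      exact k2 t (((le_max_left _ _).trans (le_max_right _ _)).trans ht) (hNZ t hO)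
    · intro t₁ t₂ ht h12
      have ht4 : T4 ≤ t₁ := ((le_max_right _ _).trans (le_max_right _ _)).trans ht
      exact ⟨Pool.Agent.H572.ST.S_int (by linarith) h12, k4 t₁ t₂ ht4 h12⟩

end Pool.Agent.Results.MP_af3d17_nt.LongGaps
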