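import Pool.Agent.H481.MG11

/-!
# Which correlations determine the order `N^{-4/3}` of the smallest gap?

The conjecture `α = -1/3` for the smallest gaps of the zeros of `ζ` comes from the prediction that
the smallest of `N` consecutive gaps is about `N^{-1/3}` times the mean gap, as for the `N`
eigenvalues of a random unitary matrix, whose smallest distance is of the order `N^{-4/3}`.  What
is known about the zeros beyond their density are their correlations in a bounded range of
frequencies (Montgomery; Hejhal; Rudnick and Sarnak).  In the unitary model, with `N` points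
`z_1, …, z_N` of the unit circle instead of the zeros, the correlations of range `R` are the means
`E[F(z) conj G(z)]` for the polynomials `F`, `G` of total degree at most `R`, and the prediction is
their value for the eigenvalues of a Haar distributed unitary `N × N` matrix.  The known range is
`R = N`.

It is proved that the order of the smallest distance is a statement about the correlations of the
range `N^{4/3}`, for the upper bound and for the lower bound.  Let `δ` be the smallest distance of
two of the points.

* For all random points with the predicted correlations of range `R`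
  `P(δ > x) ≤ 400 / (min(x, 1/N) min(R, N^{4/3}))` and `P(δ ≤ x) ≤ N⁴ (2 x³ + 6 / R³)`.
  So `δ` is of the order `N^{-4/3}` with probability close to `1` if `R / N^{4/3}` is large, and
  it is at most of the order `1/R` for `N ≤ R ≤ N^{4/3}`.
* For all `R` there are random points with the predicted correlations of range `R` with
  `δ ≥ 4 / (N + R)` almost surely; so the upper bound for `δ` is of the right order for all
  `R ≥ N`, and the order `N^{-4/3}` does not follow if `R` is much smaller than `N^{4/3}`.
* For all `R` there are random points with the predicted correlations of range `R` for which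
  `P(δ = 0) ≥ m / (1 + m)`, where `m = N² (N² - 1) / (12 (N + R)³)`; so no lower bound for `δ`
  follows if `R` is much smaller than `N^{4/3}`: `P(δ = 0)` can be as close to `1` as we like.

Proof.  The statistic `Y = ∑_{i ≠ j} f(z_i / z_j)` with the cube `f` of Fejér's kernel of degree
about `1/x` has a predicted mean and a predicted variance; both are computed for the law `|Δ|²` on
the roots of unity of order `N + R`, where the correlations of four points are bounded by those of
two points by Fischer's inequality, and a second statistic with `f(w) |w - 1|²` bounds the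
contribution of the pairs at a distance of more than `x` to `Y`.  For the last law (two-point noise,
see `MP_d5e261_nt.DistinctBarrier`), the number of double points has the mean `m` and a variance of
at most `m`, again by Fischer's inequality.
-/

open MeasureTheory

namespace Pool.Agent.Results.MP_af3d17_nt.SmallestGap

/-- the mean of `f` over the eigenvalues `z = (e^{iθ_1}, …, e^{iθ_N})` of a Haar distributed
unitary `N × N` matrix (Weyl's formula):
`(N! (2π)^N)⁻¹ ∫_{(0, 2π]^N} f(z) ∏_{i < j} |z_j - z_i|² dθ` -/
noncomputable def haarMean (N : ℕ) (f : (Fin N → ℂ) → ℂ) : ℂ :=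
  ((N.factorial : ℂ) * (2 * Real.pi) ^ N)⁻¹ *
    ∫ θ in Set.univ.pi fun _ : Fin N => Set.Ioc (0 : ℝ) (2 * Real.pi),
      f (fun j => Complex.exp (Complex.I * θ j)) *
        ((∏ i : Fin N, ∏ j ∈ Finset.Ioi i,
          ‖Complex.exp (Complex.I * θ j) - Complex.exp (Complex.I * θ i)‖ ^ 2 : ℝ) : ℂ)

/-- `ν` is a law of `N` points on the unit circle with the correlations of range `R` of the
eigenvalues of a Haar distributed unitary `N × N` matrix: the means `E[F(z) conj G(z)]` are the
same, for all polynomials `F`, `G` of total degree at most `R` -/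
structure Agrees (N R : ℕ) (ν : Measure (Fin N → ℂ)) : Prop where
  prob : IsProbabilityMeasure ν
  unit : ∀ᵐ z ∂ν, ∀ i, ‖z i‖ = 1
  moments : ∀ F G : MvPolynomial (Fin N) ℂ, F.totalDegree ≤ R → G.totalDegree ≤ R →
    ∫ z, MvPolynomial.eval z F * (starRingEnd ℂ) (MvPolynomial.eval z G) ∂ν =
      haarMean N (fun z => MvPolynomial.eval z F * (starRingEnd ℂ) (MvPolynomial.eval z G))

/-- **Theorem.** Let `N ≥ 2` and `R ≥ 1`.  For all laws of `N` points on the circle with the
correlations of range `R` of the unitary group `U(N)`, the probability that all distances are more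
than `x > 0` is at most `400 / (min(x, 1/N) min(R, N^{4/3}))`, and the probability that there is a
distance of at most `x ≥ 0` is at most `N⁴ (2 x³ + 6 / R³)`.  There is such a law for which all
distances are at least `4 / (N + R)` almost surely, and there is such a law for which two of the
points coincide with a probability of at least `m / (1 + m)`,
`m = N² (N² - 1) / (12 (N + R)³)`. -/
theorem result (N R : ℕ) (hN : 2 ≤ N) (hR : 1 ≤ R) :
    (∀ ν : Measure (Fin N → ℂ), Agrees N R ν →
      (∀ x : ℝ, 0 < x → ν.real {z | ∀ i j, i ≠ j → x < ‖z i - z j‖} ≤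
        400 / (min x (1 / N) * min (R : ℝ) ((N : ℝ) ^ (4 / 3 : ℝ)))) ∧
      (∀ x : ℝ, 0 ≤ x → ν.real {z | ∃ i j, i ≠ j ∧ ‖z i - z j‖ ≤ x} ≤
        (N : ℝ) ^ 4 * (2 * x ^ 3 + 6 / (R : ℝ) ^ 3))) ∧
    (∃ ν : Measure (Fin N → ℂ), Agrees N R ν ∧
      ∀ᵐ z ∂ν, ∀ i j, i ≠ j → 4 / ((N : ℝ) + R) ≤ ‖z i - z j‖) ∧
    (∃ ν : Measure (Fin N → ℂ), Agrees N R ν ∧
      ((N : ℝ) ^ 2 * ((N : ℝ) ^ 2 - 1) / (12 * ((N : ℝ) + R) ^ 3)) /
        (1 + (N : ℝ) ^ 2 * ((N : ℝ) ^ 2 - 1) / (12 * ((N : ℝ) + R) ^ 3)) ≤
          ν.real {z | ∃ i j, i ≠ j ∧ z i = z j}) := by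
  refine ⟨fun ν hν => ⟨fun x hx => ?_, fun x hx => ?_⟩, ?_, ?_⟩
  · have := hν.prob
    exact Pool.Agent.H481.MG.far hN hR hx hν.unit hν.moments
  · have := hν.prob
    exact Pool.Agent.H481.MG.near hN hR hx hν.unit hν.moments
  · refine ⟨Pool.Agent.H481.SG.glaw N (N + R), ⟨?_, ?_, ?_⟩, Pool.Agent.H481.MG.rigid hN⟩
    · exact Pool.Agent.H481.SG.glaw_prob (by omega) (by omega)
    · exact Pool.Agent.H481.SG.glaw_unit _
    · exact fun F G hF hG => Pool.Agent.H481.SG.glaw_mom (by omega) (le_refl _) F G hF hG
  · refine ⟨Pool.Agent.H481.SB.law N (N + R), ⟨?_, ?_, ?_⟩, ?_⟩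
    · exact Pool.Agent.H481.SB.law_prob (by omega) (by omega)
    · exact Pool.Agent.H481.SB.law_ae fun x _ i => Pool.Agent.H481.SB.ps0_norm (x i)
    · exact fun F G hF hG => Pool.Agent.H481.SB.law_mom (by omega) (le_refl _) F G hF hG
    · have h := Pool.Agent.H481.MG.double_prob (N := N) (D := N + R) (by omega) (by omega) rfl
      push_cast at h
      exact h

end Pool.Agent.Results.MP_af3d17_nt.SmallestGap
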